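import Mathlib

/-!
# Moments of multilinear functions of independent variables
-/

set_option autoImplicit false

namespace Pool.Agent.V5helper57.Prd

open Finset

/-- The mean over a finite set. -/
noncomputable def av {X : Type} [Fintype X] (f : X → ℝ) : ℝ := (∑ x, f x) / Fintype.card X

section
variable {X : Type} [Fintype X]

theorem av_add (f g : X → ℝ) : av (fun x => f x + g x) = av f + av g := by
  unfold av
  rw [sum_add_distrib, add_div]

theorem av_sub (f g : X → ℝ) : av (fun x => f x - g x) = av f - av g := by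
  unfold av
  rw [sum_sub_distrib, sub_div]

theorem av_mul (c : ℝ) (f : X → ℝ) : av (fun x => c * f x) = c * av f := by
  unfold av
  rw [← mul_sum, mul_div_assoc]

theorem av_sum {κ : Type} (s : Finset κ) (f : κ → X → ℝ) : av (fun x => ∑ i ∈ s, f i x) = ∑ i ∈ s, av (f i) := by
  unfold av
  rw [sum_comm, sum_div]

theorem av_mono {f g : X → ℝ} (h : ∀ x, f x ≤ g x) : av f ≤ av g := by
  unfold av
  exact div_le_div_of_nonneg_right (sum_le_sum fun x _ => h x) (by positivity)

theorem av_const [Nonempty X] (c : ℝ) : av (fun _ : X => c) = c := by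
  unfold av
  rw [sum_const, card_univ, nsmul_eq_mul]
  have : (0 : ℝ) < Fintype.card X := by exact_mod_cast Fintype.card_pos
  field_simp

theorem av_abs_le [Nonempty X] {f : X → ℝ} {c : ℝ} (h : ∀ x, |f x| ≤ c) : |av f| ≤ c := by
  have h1 : av f ≤ c := (av_mono fun x => (abs_le.1 (h x)).2).trans (av_const c).le
  have h2 : -c ≤ av f := (av_const (X := X) (-c)).symm.le.trans (av_mono fun x => (abs_le.1 (h x)).1)
  exact abs_le.2 ⟨h2, h1⟩

theorem av_near [Nonempty X] {f g : X → ℝ} {c : ℝ} (h : ∀ x, |f x - g x| ≤ c) : |av f - av g| ≤ c := by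
  rw [← av_sub]
  exact av_abs_le h

theorem av_abs (f : X → ℝ) : |av f| ≤ av (fun x => |f x|) := by
  unfold av
  rw [abs_div, abs_of_nonneg (by positivity : (0 : ℝ) ≤ Fintype.card X)]
  exact div_le_div_of_nonneg_right (abs_sum_le_sum_abs _ _) (by positivity)

end

theorem prod_diff {ι : Type} [DecidableEq ι] (s : Finset ι) (u v : ι → ℝ) {A ε : ℝ} (hA : 1 ≤ A) (hε : 0 ≤ ε)
    (hu : ∀ j ∈ s, |u j| ≤ A) (hv : ∀ j ∈ s, |v j| ≤ A) (h : ∀ j ∈ s, |u j - v j| ≤ ε) :
    |∏ j ∈ s, u j - ∏ j ∈ s, v j| ≤ s.card * A ^ s.card * ε := by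
  induction s using Finset.induction_on with
  | empty => simp
  | insert a s ha ih =>
    have ih := ih (fun j hj => hu j (mem_insert_of_mem hj)) (fun j hj => hv j (mem_insert_of_mem hj))
      (fun j hj => h j (mem_insert_of_mem hj))
    rw [prod_insert ha, prod_insert ha, card_insert_of_notMem ha]
    have e : u a * ∏ j ∈ s, u j - v a * ∏ j ∈ s, v j = u a * (∏ j ∈ s, u j - ∏ j ∈ s, v j) + (u a - v a) * ∏ j ∈ s, v j := by ring
    rw [e]
    refine (abs_add_le _ _).trans ?_
    rw [abs_mul, abs_mul]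
    have h1 : |∏ j ∈ s, v j| ≤ A ^ s.card := by
      rw [abs_prod]
      refine (prod_le_prod (fun j _ => abs_nonneg _) fun j hj => hv j (mem_insert_of_mem hj)).trans ?_
      rw [prod_const]
    have h2 := hu a (mem_insert_self a s)
    have h3 := h a (mem_insert_self a s)
    have hA0 : 0 ≤ A := by linarith
    have hAk : A ^ s.card ≤ A ^ (s.card + 1) := pow_le_pow_right₀ hA (by omega)
    calc |u a| * |∏ j ∈ s, u j - ∏ j ∈ s, v j| + |u a - v a| * |∏ j ∈ s, v j| ≤ A * (s.card * A ^ s.card * ε) + ε * A ^ s.card := by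
          gcongr
      _ ≤ A * (s.card * A ^ s.card * ε) + ε * A ^ (s.card + 1) := by gcongr
      _ = ((s.card + 1 : ℕ) : ℝ) * A ^ (s.card + 1) * ε := by
          push_cast
          ring

section
variable {n : ℕ} {U : Fin n → Type} [∀ j, Fintype (U j)] [∀ j, Nonempty (U j)]

omit [∀ j, Nonempty (U j)] in
theorem av_prod (h : ∀ j, U j → ℝ) : av (fun t : ∀ j, U j => ∏ j, h j (t j)) = ∏ j, av (h j) := by
  classical
  unfold av
  rw [prod_div_distrib, Fintype.card_pi]
  push_cast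
  congr 1
  rw [Finset.prod_univ_sum, Fintype.piFinset_univ]

/-- The multilinear function. -/
noncomputable def Phi (c : Finset (Fin n) → ℝ) (x : Fin n → ℝ) : ℝ := ∑ S : Finset (Fin n), c S * ∏ j ∈ S, x j

theorem av_subset (S : Finset (Fin n)) (y : ∀ j, U j → ℝ) :
    av (fun t : ∀ j, U j => ∏ j ∈ S, y j (t j)) = ∏ j ∈ S, av (y j) := by
  classical
  have h1 := av_prod (U := U) (fun j u => if j ∈ S then y j u else 1)
  have e1 : (fun t : ∀ j, U j => ∏ j, (fun j (u : U j) => if j ∈ S then y j u else 1) j (t j)) =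
      fun t => ∏ j ∈ S, y j (t j) := by
    funext t
    simp only
    rw [prod_ite_mem, univ_inter]
  have e2 : ∏ j, av ((fun j (u : U j) => if j ∈ S then y j u else 1) j) = ∏ j ∈ S, av (y j) := by
    have : ∀ j, av ((fun j (u : U j) => if j ∈ S then y j u else 1) j) = if j ∈ S then av (y j) else 1 := by
      intro j
      by_cases hj : j ∈ S
      · simp only [if_pos hj]
      · simp only [if_neg hj]
        exact av_const 1
    rw [prod_congr rfl fun j _ => this j, prod_ite_mem, univ_inter]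
  rw [e1, e2] at h1
  exact h1

theorem av_Phi (c : Finset (Fin n) → ℝ) (y : ∀ j, U j → ℝ) :
    av (fun t : ∀ j, U j => Phi c (fun j => y j (t j))) = ∑ S : Finset (Fin n), c S * ∏ j ∈ S, av (y j) := by
  unfold Phi
  rw [av_sum]
  refine sum_congr rfl fun S _ => ?_
  rw [av_mul, av_subset]

theorem Phi_le {c : Finset (Fin n) → ℝ} {A : ℝ} (hA : 1 ≤ A) (hc : ∀ S, |c S| ≤ A) {x : Fin n → ℝ} (hx : ∀ j, |x j| ≤ A) :
    |Phi c x| ≤ 2 ^ n * (A * A ^ n) := by
  unfold Phi
  refine (abs_sum_le_sum_abs _ _).trans ?_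
  have h1 : ∀ S ∈ (univ : Finset (Finset (Fin n))), |c S * ∏ j ∈ S, x j| ≤ A * A ^ n := by
    intro S _
    rw [abs_mul, abs_prod]
    have h2 : ∏ j ∈ S, |x j| ≤ A ^ n := by
      refine (prod_le_prod (fun j _ => abs_nonneg _) fun j _ => hx j).trans ?_
      rw [prod_const]
      exact pow_le_pow_right₀ hA (by simpa using card_le_univ S)
    exact mul_le_mul (hc S) h2 (prod_nonneg fun j _ => abs_nonneg _) (by linarith)
  refine (sum_le_sum h1).trans ?_
  rw [sum_const, card_univ, Fintype.card_finset, Fintype.card_fin, nsmul_eq_mul]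
  push_cast
  exact le_rfl

/-- The data. -/
structure Dat (U : Fin n → Type) [∀ j, Fintype (U j)] (c : Finset (Fin n) → ℝ) (r : Fin n → ℝ) (y z : ∀ j, U j → ℝ)
    (B : (j : Fin n) → U j → Prop) (V : (∀ j, U j) → ℝ) (A s : ℝ) : Prop where
  A1 : 1 ≤ A
  s1 : 1 ≤ s
  yb : ∀ j u, |y j u| ≤ A
  zb : ∀ j u, |z j u| ≤ A
  rb : ∀ j, |r j| ≤ A
  cb : ∀ S, |c S| ≤ A
  c0 : ∀ S, Even S.card → c S = 0
  y1 : ∀ j, |av (y j) + r j / s| ≤ A / s ^ 2
  y2 : ∀ j, |av (fun u => y j u ^ 2) - 1| ≤ A / s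
  z1 : ∀ j, |av (z j) + 1| ≤ A / s
  bad : ∀ j, ∀ [DecidablePred (B j)], av (fun u => if B j u then (1 : ℝ) else 0) ≤ A / s ^ 2
  Vb : ∀ t, |V t| ≤ A / s
  Vn : ∀ t, |V t + Phi c (fun j => y j (t j)) / s + Phi c (fun j => z j (t j)) / (2 * s ^ 2)| ≤ A / s ^ 3

open Classical in
/-- The value, zero on the bad set. -/
noncomputable def GV (B : (j : Fin n) → U j → Prop) (V : (∀ j, U j) → ℝ) (t : ∀ j, U j) : ℝ :=
  if ∃ j, B j (t j) then 0 else V t

variable {c : Finset (Fin n) → ℝ} {r : Fin n → ℝ} {y z : ∀ j, U j → ℝ} {B : (j : Fin n) → U j → Prop} {V : (∀ j, U j) → ℝ} {A s : ℝ}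

open Classical in
theorem Dat.bad_le (D : Dat U c r y z B V A s) : av (fun t : ∀ j, U j => if ∃ j, B j (t j) then (1 : ℝ) else 0) ≤ n * (A / s ^ 2) := by
  have h1 : ∀ j, av (fun t : ∀ j, U j => if B j (t j) then (1 : ℝ) else 0) ≤ A / s ^ 2 := by
    intro j
    have h2 := av_subset (U := U) {j} (fun j u => if B j u then (1 : ℝ) else 0)
    simp only [prod_singleton] at h2
    rw [h2]
    exact D.bad j
  have h3 : av (fun t : ∀ j, U j => if ∃ j, B j (t j) then (1 : ℝ) else 0) ≤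
      av (fun t : ∀ j, U j => ∑ j, if B j (t j) then (1 : ℝ) else 0) := by
    refine av_mono fun t => ?_
    split_ifs with h
    · obtain ⟨j, hj⟩ := h
      calc (1 : ℝ) = if B j (t j) then (1 : ℝ) else 0 := by rw [if_pos hj]
        _ ≤ _ := single_le_sum (f := fun j => if B j (t j) then (1 : ℝ) else 0) (fun i _ => by
            split_ifs <;> norm_num) (mem_univ j)
    · exact sum_nonneg fun i _ => by split_ifs <;> norm_num
  refine h3.trans ?_
  rw [av_sum]
  refine (sum_le_sum fun j _ => h1 j).trans ?_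
  rw [sum_const, card_univ, Fintype.card_fin, nsmul_eq_mul]

/-- The effect of the bad set. -/
theorem Dat.GV_near (D : Dat U c r y z B V A s) {Ψ : ℝ → ℝ} (hΨ : Ψ 0 = 0) {K : ℝ} (hK : ∀ t, |Ψ (V t)| ≤ K) (hK0 : 0 ≤ K) :
    |av (fun t => Ψ (GV B V t)) - av (fun t => Ψ (V t))| ≤ K * (n * (A / s ^ 2)) := by
  classical
  rw [← av_sub]
  refine (av_abs _).trans ?_
  have h1 : av (fun t => |Ψ (GV B V t) - Ψ (V t)|) ≤ av (fun t : ∀ j, U j => K * (if ∃ j, B j (t j) then (1 : ℝ) else 0)) := by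
    refine av_mono fun t => ?_
    unfold GV
    split_ifs with h
    · rw [hΨ, zero_sub, abs_neg, mul_one]
      exact hK t
    · rw [sub_self, abs_zero, mul_zero]
  refine h1.trans ?_
  rw [av_mul]
  exact mul_le_mul_of_nonneg_left D.bad_le hK0

end

end Pool.Agent.V5helper57.Prd
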